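import Pool.Agent.Results.MP_2000e9_nt.PatternsOfOneWeight
import Pool.Agent.U513.AP.Tuples

/-!
# Multiple zeta values whose arguments are numerators and denominators of Diophantine approximations

Let `w_1, …, w_r` be different admissible patterns of one weight in `d + 1` variables, for example `ζ(s_0, s_1)`, `ζ(s_1, s_0)`,
`ζ(s_0 + s_1)`; in general the letters of a pattern are the numbers `b + a_0 s_0 + ⋯ + a_d s_d` with natural numbers `b`, `a_j`, and
constant first letters are allowed under a condition. We show that, for all `α ∈ (0, ∞) ^ d` outside of a set of Hausdorff dimension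
at most `d / (1 + τ)`, the multiple zeta values `ζ(w_1(s)), …, ζ(w_r(s))` at the approximations `s = (k, u_1, …, u_d)` of `α`,
`|k α_i - γ_i - u_i| ≤ k ^ (-τ)`, satisfy no nontrivial linear relation with integer coefficients of absolute value at most `C ^ k`,
for ALL such approximations with large `k`, and every `C`. For `d = 1`, `γ = 0`, `τ = 1`: let `p / q` be the convergents of the
continued fraction of `α > 0`; for all `α` outside of a set of dimension at most `1 / 2` the numbers `ζ(p, q)`, `ζ(q, p)`, `ζ(p + q)`
satisfy no such relation for large `q`. For `τ = 1 / d` the theorem applies to all the best simultaneous approximations.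

Proof. The theorem `PatternsOfOneWeight` of this page in the starting library bounds the number of the exceptional tuples in
`[N, κ N] ^ (d + 1)` by `K N ^ d`. The cubes of side `2 N ^ (- 1 - τ)` of the `α` approximated by them are used as the covers in the
definition of the Hausdorff dimension (`U513/AP/Tuples`). For a given `α` the approximations are so few that the bound for the number
of the exceptional tuples alone does not say anything about them; the pairs `(k, u)` for a given `α` are near a line, and the results
for a few hyperplanes or dispersed families do not exclude infinitely many exceptions.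
-/

set_option autoImplicit false

open Finset Filter MeasureTheory

namespace Pool.Agent.Results.MP_2000e9_nt.Approximations

open PatternsOfOneWeight (mzv Letter index AdmissiblePattern constantPart exceptional)

/-- `(k, u)` is an approximation of `α` of exponent `τ` and shift `γ`: `|k α_i - γ_i - u_i| ≤ k ^ (-τ)` for all `i`. -/
def Approx {d : ℕ} (τ : ℝ) (γ α : Fin d → ℝ) (k : ℕ) (u : Fin d → ℕ) : Prop :=
  ∀ i, |(k : ℝ) * α i - γ i - u i| ≤ (k : ℝ) ^ (-τ)

/-- The multiple zeta values of the patterns `w_i` at the tuple `s` satisfy a nontrivial linear relation with integer coefficients of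
absolute value at most `H`. -/
def Related {k r : ℕ} (w : Fin r → List (Letter k)) (H : ℝ) (s : Fin k → ℕ) : Prop :=
  ∃ c : Fin r → ℤ, c ≠ 0 ∧ (∀ i, |(c i : ℝ)| ≤ H) ∧ ∑ i, (c i : ℝ) * mzv (index s (w i)) = 0

/-- **Multiple zeta values at approximations.** Let `w_1, …, w_r` be different admissible patterns in `d + 1` variables which have the
same weight at every tuple, and let the initial segments of the same weight of their constant parts be equal. For all `τ ≥ 0` and
`γ ∈ ℝ ^ d` there is a set `E` of Hausdorff dimension at most `d / (1 + τ)` (of Lebesgue measure zero if `d ≥ 1` and `τ > 0`) such that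
for all `α ∉ E` with `α_i > 0` for all `i`, and every `C`: for all large `k` and all `u ∈ ℕ ^ d` with
`|k α_i - γ_i - u_i| ≤ k ^ (-τ)` the multiple zeta values `ζ(w_i(k, u))` satisfy no nontrivial linear relation with integer coefficients
of absolute value at most `C ^ k`. -/
theorem result {d r : ℕ} (w : Fin r → List (Letter (d + 1))) (hw : ∀ i, AdmissiblePattern (w i)) (hinj : Function.Injective w)
    (hweight : ∀ i j (s : Fin (d + 1) → ℕ), (index s (w i)).sum = (index s (w j)).sum)
    (hfront : ∀ i j q q', q <+: constantPart (w i) → q' <+: constantPart (w j) → q.sum = q'.sum → q = q') :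
    ∀ (τ : ℝ) (γ : Fin d → ℝ), 0 ≤ τ → ∃ E : Set (Fin d → ℝ), dimH E ≤ ENNReal.ofReal (d / (1 + τ)) ∧
      (1 ≤ d → 0 < τ → volume E = 0) ∧
      ∀ α, α ∉ E → (∀ i, 0 < α i) → ∀ C : ℝ, ∀ᶠ k : ℕ in atTop, ∀ u : Fin d → ℕ, Approx τ γ α k u →
        ¬ Related w (C ^ k) (Fin.cons k u : Fin (d + 1) → ℕ) := by
  classical
  intro τ γ hτ
  obtain ⟨E, h1, h2⟩ := Pool.Agent.U513.AP.tuple_law (d := d) (a := d) (Nat.cast_nonneg d)
    (fun c s => Related w ((c : ℝ) ^ (s 0)) s) (fun c κ => by
      obtain ⟨K, hK⟩ := PatternsOfOneWeight.result w hw hinj hweight hfront κ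
      obtain ⟨N₀, hN₀⟩ := hK (((c : ℝ) + 1) ^ κ)
      refine ⟨K, N₀, fun N hN => ?_⟩
      have h3 := hN₀ N hN
      rw [Nat.add_sub_cancel] at h3
      rw [Real.rpow_natCast]
      have hfin : (exceptional w κ N ((((c : ℝ) + 1) ^ κ) ^ N)).Finite := by
        refine (Set.Finite.pi' (t := fun _ : Fin (d + 1) => Set.Icc N (κ * N)) fun _ => Set.finite_Icc _ _).subset ?_
        intro s hs j
        exact ⟨(hs.1 j).1, (hs.1 j).2⟩
      have h4 : {s : Fin (d + 1) → ℕ | (∀ j, N ≤ s j ∧ s j ≤ κ * N) ∧ Related w ((c : ℝ) ^ (s 0)) s} ⊆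
          exceptional w κ N ((((c : ℝ) + 1) ^ κ) ^ N) := by
        rintro s ⟨g1, co, g2, g3, g4⟩
        refine ⟨g1, co, g2, fun i => (g3 i).trans ?_, g4⟩
        rw [← pow_mul]
        have hc0 : (0 : ℝ) ≤ c := Nat.cast_nonneg _
        calc (c : ℝ) ^ (s 0) ≤ ((c : ℝ) + 1) ^ (s 0) := pow_le_pow_left₀ hc0 (by linarith) _
          _ ≤ ((c : ℝ) + 1) ^ (κ * N) := pow_le_pow_right₀ (by linarith) (g1 0).2
      have h5 := (Set.ncard_le_ncard h4 hfin).trans h3
      exact_mod_cast h5) hτ γ
  refine ⟨E, h1, fun hd hτ0 => Pool.Agent.U513.AP.null_of_dim hd h1 ?_, fun α hα hpos C => ?_⟩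
  · have hd0 : (0 : ℝ) < d := by exact_mod_cast hd
    rw [div_lt_iff₀ (by linarith)]
    nlinarith
  · obtain ⟨c, hc⟩ := exists_nat_ge |C|
    filter_upwards [h2 α hα hpos c] with k hk u hu hR
    refine hk u hu ?_
    obtain ⟨co, g1, g2, g3⟩ := hR
    refine ⟨co, g1, fun i => (g2 i).trans ?_, g3⟩
    rw [Fin.cons_zero]
    calc C ^ k ≤ |C ^ k| := le_abs_self _
      _ = |C| ^ k := abs_pow C k
      _ ≤ (c : ℝ) ^ k := pow_le_pow_left₀ (abs_nonneg C) hc k

end Pool.Agent.Results.MP_2000e9_nt.Approximations
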