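import Mathlib
import Pool.Agent.U831.AF.Dist
import Pool.Agent.H447R2.MZ.Dich

/-!
# Linear forms in multiple zeta values of weight at most `w` on long ranges of scales

By the starting hand-in `SumDimension` the multiple zeta values of weight at most `w` span a space of
dimension at least `⌊2w/3⌋ + 1`. Here the corresponding statement at every scale: let `1, t_1, …, t_f`
span all multiple zeta values of weight at most `w`, and let `z_1, …, z_r` be any real numbers. For
every large `X` there is ONE rational space `W` of codimension at least `⌊2w/3⌋` in the space of all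
coefficient vectors `(a, e)`, such that at all scales `N` between `X` and `X ^ M` the multiples of
`θ = a_1 t_1 + … + a_f t_f + e_1 z_1 + … + e_r z_r` modulo one are equidistributed with a power saving
for all `(a, e)` of height at most `N ^ κ` outside `W`. The constants do not depend on the `z_j`.

The proof. Bad distribution at the scale `N` gives a near relation between `1, t, z`. If the near
relations (values below `X ^ (-κ)` for all `κ`) spanned too large a space for a sequence of scales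
`X_n → ∞`, we pass to the field of sequences bounded by a power of `X_n`, modulo those which are
smaller than all powers of `1 / X_n` along an ultrafilter (`Pool.Agent.U831.AF`). Measures of linear
independence turn into linear independence over the ring `D` of the classes of integer sequences;
over the fraction field of `D` the class of `π²` is transcendental and `1, π², ζ(3)` are independent,
and the argument of `SumDimension`, which works over any field, contradicts the number of relations.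
-/

set_option autoImplicit false

namespace Pool.Agent.Results.MP_2000e9_nt.FormsOnLongRanges

open Finset

/-- the `ℚ`-span of the multiple zeta values
`ζ(n_1, …, n_r) = ∑_{0 < k_1 < ⋯ < k_r} k_1^(-n_1) ⋯ k_r^(-n_r)` (`n_i ≥ 1`, `n_r ≥ 2`) of weight `N`;
for `r = 0` the value is `1` and the weight `0` -/
noncomputable def Z (N : ℕ) : Submodule ℚ ℝ :=
  Submodule.span ℚ
    {x : ℝ | ∃ r : ℕ, ∃ n : Fin r → ℕ,
      (∀ i, 1 ≤ n i) ∧ (∀ h : 0 < r, 2 ≤ n ⟨r - 1, Nat.sub_lt h one_pos⟩) ∧ (∑ i, n i) = N ∧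
      x = ∑' k : {k : Fin r → ℕ // StrictMono k ∧ ∀ i, 1 ≤ k i},
            ∏ i, (((k.1 i : ℕ) : ℝ) ^ (n i))⁻¹}

/-- the number of `m < N` with the fractional part of `m θ + γ` in `[u, v)` -/
noncomputable def count (θ γ u v : ℝ) (N : ℕ) : ℕ :=
  ((range N).filter fun m : ℕ => u ≤ Int.fract (m * θ + γ) ∧ Int.fract (m * θ + γ) < v).card

/-- the sequence `m θ + γ`, `m < N`, is equidistributed with an error at most `N ^ (1 - κ)` -/
def Good (κ : ℝ) (N : ℕ) (θ : ℝ) : Prop :=
  ∀ γ u v : ℝ, 0 ≤ u → u ≤ v → v ≤ 1 → |(count θ γ u v N : ℝ) - (v - u) * N| ≤ (N : ℝ) ^ (1 - κ)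

open Pool.Agent.H447R2.MZ in
theorem Zs_le (N : ℕ) : Zs N ≤ Z N := by
  unfold Zs Z
  rw [Submodule.span_le]
  rintro x ⟨t, k, h1, h2, h3, rfl⟩
  refine Submodule.subset_span ⟨t, k ∘ Fin.rev, fun i => h1 _, fun h => ?_, ?_, ?_⟩
  · have := h2 h
    have e : Fin.rev (⟨t - 1, Nat.sub_lt h one_pos⟩ : Fin t) = ⟨0, h⟩ := by
      ext
      simp only [Fin.val_rev]
      omega
    rw [Function.comp_apply, e]
    exact this
  · rw [← h3]
    exact Fintype.sum_equiv Fin.revPerm _ _ fun i => rfl
  · let e : {m : Fin t → ℕ // StrictAnti m ∧ ∀ i, 1 ≤ m i} ≃ {k : Fin t → ℕ // StrictMono k ∧ ∀ i, 1 ≤ k i} :=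
      { toFun := fun m => ⟨m.1 ∘ Fin.rev, fun i j hij => m.2.1 (Fin.rev_lt_rev.2 hij), fun i => m.2.2 _⟩
        invFun := fun m => ⟨m.1 ∘ Fin.rev, fun i j hij => m.2.1 (Fin.rev_lt_rev.2 hij), fun i => m.2.2 _⟩
        left_inv := fun m => by
          apply Subtype.ext
          funext i
          simp
        right_inv := fun m => by
          apply Subtype.ext
          funext i
          simp }
    rw [← e.tsum_eq]
    refine tsum_congr fun m => ?_
    exact Fintype.prod_equiv Fin.revPerm _ _ fun i => by simp [e]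

/-- **Forms in multiple zeta values of weight at most `w`.** -/
theorem result (w f : ℕ) (t : Fin f → ℝ)
    (ht : ∀ n ≤ w, Z n ≤ Submodule.span ℚ (insert 1 (Set.range t))) (r : ℕ) (M : ℝ) (hM : 1 ≤ M) :
    ∃ κ : ℝ, 0 < κ ∧ ∃ X₀ : ℝ, ∀ z : Fin r → ℝ, ∀ X : ℝ, X₀ ≤ X →
      ∃ W : Submodule ℚ ((Fin f → ℚ) × (Fin r → ℚ)), Module.finrank ℚ W + 2 * w / 3 ≤ f + r ∧
        ∀ N : ℕ, X ≤ N → (N : ℝ) ≤ X ^ M → ∀ (a : Fin f → ℤ) (e : Fin r → ℤ),
          (∀ i, |(a i : ℝ)| ≤ (N : ℝ) ^ κ) → (∀ j, |(e j : ℝ)| ≤ (N : ℝ) ^ κ) →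
          ((fun i => (a i : ℚ), fun j => (e j : ℚ)) : (Fin f → ℚ) × (Fin r → ℚ)) ∉ W →
            Good κ N (∑ i, a i * t i + ∑ j, e j * z j) := by
  have hmon : ∀ a b : ℕ, 2 * b + 3 * a ≤ w →
      (Real.pi ^ 2) ^ b * Pool.Agent.V11210.ZZ.zeta 3 ^ a ∈ Submodule.span ℚ (insert 1 (Set.range t)) := by
    intro a b hab
    have h1 := Pool.Agent.H447R2.MZ.mul_mem (2 * b) (3 * a) _ _
      (Pool.Agent.H447R2.MZ.pow_mem 2 _ Pool.Agent.H447R2.MZ.pi_sq_mem b)
      (Pool.Agent.H447R2.MZ.pow_mem 3 _ Pool.Agent.H447R2.MZ.z3_mem a)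
    exact ht _ hab (Zs_le _ h1)
  obtain ⟨κ, hκ, X₀, h⟩ := Pool.Agent.U831.AF.dist r w t hmon M hM
  refine ⟨κ, hκ, max X₀ 1, fun z X hX => ?_⟩
  have hX0 := (le_max_left _ _).trans hX
  have hX1 := (le_max_right _ _).trans hX
  refine ⟨(Submodule.span ℚ (Pool.Agent.U831.AF.toQ '' Pool.Agent.U831.AF.bad κ M (Sum.elim t z) X)).map
    (LinearEquiv.sumArrowLequivProdArrow (Fin f) (Fin r) ℚ ℚ).toLinearMap, ?_, ?_⟩
  · have h1 := h z X hX0
    have h2 := Submodule.finrank_map_le (LinearEquiv.sumArrowLequivProdArrow (Fin f) (Fin r) ℚ ℚ).toLinearMap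
      (Submodule.span ℚ (Pool.Agent.U831.AF.toQ '' Pool.Agent.U831.AF.bad κ M (Sum.elim t z) X))
    omega
  · intro N h1 h2 a e ha he hW γ u v hu huv hv
    have hN : 0 < (N : ℝ) := by linarith
    by_contra hcon
    apply hW
    refine ⟨Pool.Agent.U831.AF.toQ (Sum.elim a e), Submodule.subset_span ⟨Sum.elim a e, ⟨N, h1, h2, ?_, ?_⟩, rfl⟩,
      rfl⟩
    · rintro (i | j)
      · exact ha i
      · exact he j
    · intro h3
      apply hcon
      have h4 := h3 γ u v hu huv hv
      have h5 : (N : ℝ) ^ (-κ) * N = (N : ℝ) ^ (1 - κ) := by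
        rw [sub_eq_add_neg, add_comm, Real.rpow_add hN, Real.rpow_one]
      rw [h5] at h4
      have h6 : Pool.Agent.U831.AF.form (Sum.elim t z) (Sum.elim a e) = ∑ i, a i * t i + ∑ j, e j * z j := by
        unfold Pool.Agent.U831.AF.form
        rw [Fintype.sum_sum_type]
        rfl
      rw [h6] at h4
      exact h4

end Pool.Agent.Results.MP_2000e9_nt.FormsOnLongRanges
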