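import Pool.Agent.U553.HY.Dims
import Pool.Agent.Results.MP_2000e9_nt.PatternsOfOneWeight

/-!
# MP_2000e9_nt: Zagier's conjecture and the relations of patterns whose constant first letters are `2` and `3`

A pattern in `k` variables is a list of letters `b + u_1 s_1 + ... + u_k s_k` with natural numbers `b`, `u_j`; at a tuple `s`
of natural numbers it gives an index. Its constant part is the list of its first letters up to the first letter that is not
constant, for example `(2, 3)` for `ζ(2, 3, s_1, 1, s_1 + s_2)`. The patterns `w_1, ..., w_r` are independent off few hyperplanes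
if for every `κ` there is `K` such that for all `C` and all large `N` the following tuples lie on at most `K` hyperplanes
`∑ b_j s_j = c` with integers `c` and `b_j`, not all zero, `|b_j| ≤ K`: the tuples `s`, `2 ≤ s_j ≤ κ N`, for which in each of the
patterns the first letter which is not constant is at least `N`, and for which the `ζ(w_i(s))` satisfy a nontrivial linear
relation with integer coefficients of absolute value at most `C ^ N`. The letters after the first one may be small.

Theorem.
(1) Let `Q` be a set of admissible indices, with the empty one, which contains the initial segments of its elements. The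
following are equivalent: (a) the numbers `ζ(q)`, `q ∈ Q`, are linearly independent over `ℚ`; (b) all finite families of
different admissible patterns with constant parts in `Q` are independent off few hyperplanes; (c) for these families and all
dispersed sequences `F(n)` of tuples (such as the values of real polynomials of which no nontrivial integer combination is
constant) there are at most `K (W + 1)` numbers `n` with an exceptional tuple `s`, `|s_j - F_j(n)| ≤ W`, of the scale `N`;
(d) for all finite families of different admissible patterns in one variable, which contain the variable, with constant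
parts in `Q`, and for all `B` there is ONE `s ≥ 2` such that there is no nontrivial relation with coefficients at most `B`.
(2) The same for one weight: the `ζ(q)`, `q ∈ Q`, `q` of weight `n`, are linearly independent for each `n`, and families of
patterns which have the same weight at all tuples.
(3) Let `Q` be the set of the words in `2`, `3` (Hoffman). If the families of different patterns of one weight with constant
parts in `Q` are independent off few hyperplanes then `dim Z_n ≥ d_n` for all `n` (the open half of Zagier's dimension
conjecture). With Brown's theorem (`Z_n` is spanned by the `ζ(q)`, `q ∈ Q` of weight `n`) they are so if and only if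
`dim Z_n = d_n` for all `n`; and all families of different patterns with constant parts in `Q` are independent off few
hyperplanes if and only if `dim Z_n = d_n` for all `n` and the sum of the `Z_n` is direct (Q1).
(4) Unconditionally, different patterns are independent off few hyperplanes, if their constant parts are of the form
`(2 m, ..., 2 m)`, for a fixed `m`; or `()`, `(2)`, `(3)`; or if they have the same weight at all tuples and their constant parts
are of the form `(2, ..., 2)` or `(2, ..., 2, 3)`.

The theorem `PatternsOfOneWeight` of this page shows that at most `K N ^ (k - 1)` tuples of `[N, κ N] ^ k` are exceptional, if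
initial segments of the same weight of the constant parts are equal. Proof: `Pool.Agent.U553.HY` (with `Pool.Agent.X90.DC` and
`Pool.Agent.N665.LP` of the starting library) splits the relations into relations of the constant parts, off few hyperplanes;
conversely, a relation between the `ζ(q)` is multiplied by `ζ(s)`. For (4): `π` is transcendental, and `1`, `ζ(2)`, `ζ(3)` are
linearly independent (starting library). The order of the arguments is reversed in comparison with the problem.
-/

set_option autoImplicit false

namespace Pool.Agent.Results.MP_2000e9_nt.HoffmanFronts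

open Pool.Agent.Results.MP_2000e9_nt.PatternsOfOneWeight
open Pool.Agent.U553.HY (Range OnHyperplanes Dispersed OffH AlongD NoRel coreI coreW off_even off_23 off_hom SameWt)

/-- admissible indices: the empty index and `(s_1, ..., s_r)` with `s_1 ≥ 2` and all `s_i ≥ 1` -/
def Admissible : List ℕ → Prop
  | [] => True
  | s :: l => 2 ≤ s ∧ ∀ t ∈ l, 1 ≤ t

/-- admissible indices, among them the empty index, with their initial segments -/
def FrontSet (Q : Set (List ℕ)) : Prop :=
  [] ∈ Q ∧ (∀ q ∈ Q, Admissible q) ∧ ∀ q ∈ Q, ∀ q', q' <+: q → q' ∈ Q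

/-- some letter is not constant -/
def HasVariable {k : ℕ} (w : List (Letter k)) : Prop := ∃ u ∈ w, u.2 ≠ 0

/-- the indices given by the patterns at a tuple have the same weight -/
def SameWeight {k r : ℕ} (w : Fin r → List (Letter k)) : Prop :=
  ∀ i j (s : Fin k → ℕ), (index s (w i)).sum = (index s (w j)).sum

/-- there is no nontrivial linear relation between the values of the patterns at `s` with integer coefficients of absolute
value at most `B` -/
def Independent {k r : ℕ} (w : Fin r → List (Letter k)) (B : ℝ) (s : Fin k → ℕ) : Prop :=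
  ∀ c : Fin r → ℤ, (∀ i, |(c i : ℝ)| ≤ B) → ∑ i, (c i : ℝ) * mzv (index s (w i)) = 0 → c = 0

/-- For all `κ` there is `K` such that for all `C` and all sufficiently large `N` the tuples `s` with `2 ≤ s_j ≤ κ N`, for
which the first letters of the patterns `w_i` which are not constant are at least `N`, and for which `P (C ^ N) s` fails, lie
on at most `K` hyperplanes `∑ b_j s_j = c` with integers `c` and `b_j`, not all zero, `|b_j| ≤ K`. -/
def OffHyperplanes {k r : ℕ} (w : Fin r → List (Letter k)) (P : ℝ → (Fin k → ℕ) → Prop) : Prop :=
  ∀ κ : ℕ, ∃ K : ℕ, ∀ C : ℝ, ∃ N₀ : ℕ, ∀ N : ℕ, N₀ ≤ N →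
    OnHyperplanes K {s : Fin k → ℕ | s ∈ Range w κ N ∧ ¬ P (C ^ N) s}

/-- For all `κ` and all dispersed families `F` there is `K` such that for all `C`, all sufficiently large `N` and all `W` there
are at most `K (W + 1)` numbers `n` for which there is a tuple `s` with `|s_j - F_j(n)| ≤ W` and `2 ≤ s_j ≤ κ N`, such that the
first letters of the patterns `w_i` which are not constant are at least `N`, and such that `P (C ^ N) s` fails. -/
def AlongDispersed {k r : ℕ} (w : Fin r → List (Letter k)) (P : ℝ → (Fin k → ℕ) → Prop) : Prop :=
  ∀ (κ : ℕ) (F : Fin k → ℕ → ℝ), Dispersed F → ∃ K : ℕ, ∀ C : ℝ, ∃ N₀ : ℕ, ∀ N : ℕ, N₀ ≤ N → ∀ W : ℕ,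
    {n : ℕ | ∃ s ∈ Range w κ N, (∀ j, |(s j : ℝ) - F j n| ≤ W) ∧ ¬ P (C ^ N) s}.encard ≤ (K * (W + 1) : ℕ)

/-- the span of the multiple zeta values of weight `n` -/
noncomputable def Z (n : ℕ) : Submodule ℚ ℝ :=
  Submodule.span ℚ {x | ∃ l : List ℕ, Admissible l ∧ l.sum = n ∧ x = mzv l}

/-- Zagier's numbers -/
def d : ℕ → ℕ
  | 0 => 1
  | 1 => 0
  | 2 => 1
  | n + 3 => d (n + 1) + d n

/-- the words in the letters `2`, `3` -/
def Hoffman : Set (List ℕ) := {q | ∀ a ∈ q, a = 2 ∨ a = 3}

/-- Brown's theorem: the values of the words in `2`, `3` of weight `n` span `Z_n` -/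
def BrownSpanning : Prop :=
  ∀ n, Z n ≤ Submodule.span ℚ {x | ∃ q ∈ Hoffman, q.sum = n ∧ x = mzv q}

theorem mzv_fun : mzv = Pool.Agent.Y760.ZG.mz := funext mzv_eq

theorem adm_iff : ∀ u, Admissible u ↔ (u = [] ∨ Pool.Agent.X90.DB.Ad u) := by
  intro u
  cases u with
  | nil => exact ⟨fun _ => Or.inl rfl, fun _ => trivial⟩
  | cons a l => exact ⟨fun h => Or.inr h, fun h => h.resolve_left (List.cons_ne_nil _ _)⟩

theorem ind_iff {k r : ℕ} (w : Fin r → List (Letter k)) : Independent w = NoRel w := by
  funext B s
  rw [Independent, mzv_fun]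
  rfl

theorem Z_eq : Z = Pool.Agent.U553.HY.Zn := by
  funext n
  rw [Z, Pool.Agent.U553.HY.Zn, mzv_fun]
  simp only [adm_iff]

theorem d_eq : ∀ n, d n = Pool.Agent.U553.HY.dz n := by
  intro n
  induction n using d.induct with
  | case1 => rfl
  | case2 => rfl
  | case3 => rfl
  | case4 n ih1 ih2 => rw [d, Pool.Agent.U553.HY.dz, ih1, ih2]

theorem hoffman_front : FrontSet Hoffman :=
  ⟨fun _ ha => absurd ha List.not_mem_nil, fun q hq => (adm_iff q).2 (Pool.Agent.U553.HY.h23_ad q hq),
    Pool.Agent.U553.HY.h23_cl⟩

theorem part1 (Q : Set (List ℕ)) (hQ : FrontSet Q) : List.TFAE [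
    LinearIndependent ℚ fun q : Q => mzv q.1,
    ∀ (k r : ℕ) (w : Fin r → List (Letter k)), Function.Injective w →
      (∀ i, AdmissiblePattern (w i) ∧ constantPart (w i) ∈ Q) → OffHyperplanes w (Independent w),
    ∀ (k r : ℕ) (w : Fin r → List (Letter k)), Function.Injective w →
      (∀ i, AdmissiblePattern (w i) ∧ constantPart (w i) ∈ Q) → AlongDispersed w (Independent w),
    ∀ (r : ℕ) (w : Fin r → List (Letter 1)), Function.Injective w →
      (∀ i, AdmissiblePattern (w i) ∧ constantPart (w i) ∈ Q ∧ HasVariable (w i)) →
      ∀ B : ℝ, ∃ s : Fin 1 → ℕ, 2 ≤ s 0 ∧ Independent w B s] := by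
  simp only [ind_iff, constantPart_eq, mzv_fun]
  exact coreI Q (fun q hq => (adm_iff q).1 (hQ.2.1 q hq)) hQ.2.2

theorem part2 (Q : Set (List ℕ)) (hQ : FrontSet Q) : List.TFAE [
    ∀ n, LinearIndependent ℚ fun q : {q : List ℕ // q ∈ Q ∧ q.sum = n} => mzv q.1,
    ∀ (k r : ℕ) (w : Fin r → List (Letter k)), Function.Injective w → SameWeight w →
      (∀ i, AdmissiblePattern (w i) ∧ constantPart (w i) ∈ Q) → OffHyperplanes w (Independent w),
    ∀ (k r : ℕ) (w : Fin r → List (Letter k)), Function.Injective w → SameWeight w →
      (∀ i, AdmissiblePattern (w i) ∧ constantPart (w i) ∈ Q) → AlongDispersed w (Independent w),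
    ∀ (r : ℕ) (w : Fin r → List (Letter 1)), Function.Injective w → SameWeight w →
      (∀ i, AdmissiblePattern (w i) ∧ constantPart (w i) ∈ Q ∧ HasVariable (w i)) →
      ∀ B : ℝ, ∃ s : Fin 1 → ℕ, 2 ≤ s 0 ∧ Independent w B s] := by
  simp only [ind_iff, constantPart_eq, mzv_fun]
  exact coreW Q (fun q hq => (adm_iff q).1 (hQ.2.1 q hq)) hQ.2.2

/-- all families of different patterns of one weight, with words in `2`, `3` as constant parts, are independent off few
hyperplanes -/
def HoffmanFrontsOneWeight : Prop :=
  ∀ (k r : ℕ) (w : Fin r → List (Letter k)), Function.Injective w → SameWeight w →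
    (∀ i, AdmissiblePattern (w i) ∧ constantPart (w i) ∈ Hoffman) → OffHyperplanes w (Independent w)

/-- all families of different patterns with words in `2`, `3` as constant parts are independent off few hyperplanes -/
def HoffmanFrontsAllWeights : Prop :=
  ∀ (k r : ℕ) (w : Fin r → List (Letter k)), Function.Injective w →
    (∀ i, AdmissiblePattern (w i) ∧ constantPart (w i) ∈ Hoffman) → OffHyperplanes w (Independent w)

theorem part3 : (HoffmanFrontsOneWeight → ∀ n, (d n : Cardinal) ≤ Module.rank ℚ (Z n)) ∧
    (BrownSpanning → ((∀ n, Module.rank ℚ (Z n) = d n) ↔ HoffmanFrontsOneWeight) ∧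
      (((∀ n, Module.rank ℚ (Z n) = d n) ∧ iSupIndep Z) ↔ HoffmanFrontsAllWeights)) := by
  have e1 := (part2 Hoffman hoffman_front).out 0 1
  have e2 := (part1 Hoffman hoffman_front).out 0 1
  rw [mzv_fun] at e1 e2
  refine ⟨fun h n => ?_, fun hB => ?_⟩
  · rw [d_eq, Z_eq]
    exact Pool.Agent.U553.HY.dim_ge n (e1.2 h n)
  · rw [BrownSpanning, Z_eq, mzv_fun] at hB
    have hr : ∀ n, Module.rank ℚ (Z n) = Module.rank ℚ (Pool.Agent.U553.HY.Zn n) := fun n => by rw [Z_eq]
    have hI : iSupIndep Z ↔ iSupIndep Pool.Agent.U553.HY.Zn := by rw [Z_eq]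
    simp only [d_eq, hr, hI]
    have hW : (∀ n, LinearIndependent ℚ fun q : {q : List ℕ // q ∈ Hoffman ∧ q.sum = n} =>
        Pool.Agent.Y760.ZG.mz q.1) ↔ ∀ n, Module.rank ℚ (Pool.Agent.U553.HY.Zn n) = Pool.Agent.U553.HY.dz n :=
      ⟨fun h n => Pool.Agent.U553.HY.dim_eq n (hB n) (h n),
        fun h n => Pool.Agent.U553.HY.li_of_dim n (hB n) (h n)⟩
    refine ⟨hW.symm.trans e1, ⟨fun h => e2.1 (Pool.Agent.U553.HY.li_all h.2 (hW.2 h.1)), fun h => ?_⟩⟩
    have h1 := e2.2 h
    refine ⟨hW.1 fun n => ?_, Pool.Agent.U553.HY.direct_of_li hB h1⟩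
    let g : {q : List ℕ // q ∈ Hoffman ∧ q.sum = n} → Hoffman := fun q => ⟨q.1, q.2.1⟩
    exact h1.comp g fun q q' hq => Subtype.ext (congrArg (fun q : Hoffman => q.1) hq)

/-- **Theorem.** (1), (2) Let `Q` be a set of admissible indices with the empty one which contains the initial segments of its
elements. The `ζ(q)`, `q ∈ Q` (of one weight), are linearly independent if and only if all families of different patterns (of
one weight) with constant parts in `Q` are independent off few hyperplanes, if and only if they are so along dispersed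
families, if and only if for all such families in one variable and all `B` there is one good argument. (3) The case of the
words in `2`, `3`: the families of one weight are independent off few hyperplanes only if `dim Z_n ≥ d_n` for all `n`, and,
with Brown's theorem, if and only if `dim Z_n = d_n` for all `n`; and all families are so if and only if Q1 holds. (4)
Unconditional cases. -/
theorem result :
    -- (1) arbitrary weights
    (∀ Q : Set (List ℕ), FrontSet Q → List.TFAE [
      LinearIndependent ℚ fun q : Q => mzv q.1,
      ∀ (k r : ℕ) (w : Fin r → List (Letter k)), Function.Injective w →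
        (∀ i, AdmissiblePattern (w i) ∧ constantPart (w i) ∈ Q) → OffHyperplanes w (Independent w),
      ∀ (k r : ℕ) (w : Fin r → List (Letter k)), Function.Injective w →
        (∀ i, AdmissiblePattern (w i) ∧ constantPart (w i) ∈ Q) → AlongDispersed w (Independent w),
      ∀ (r : ℕ) (w : Fin r → List (Letter 1)), Function.Injective w →
        (∀ i, AdmissiblePattern (w i) ∧ constantPart (w i) ∈ Q ∧ HasVariable (w i)) →
        ∀ B : ℝ, ∃ s : Fin 1 → ℕ, 2 ≤ s 0 ∧ Independent w B s]) ∧
    -- (2) one weight
    (∀ Q : Set (List ℕ), FrontSet Q → List.TFAE [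
      ∀ n, LinearIndependent ℚ fun q : {q : List ℕ // q ∈ Q ∧ q.sum = n} => mzv q.1,
      ∀ (k r : ℕ) (w : Fin r → List (Letter k)), Function.Injective w → SameWeight w →
        (∀ i, AdmissiblePattern (w i) ∧ constantPart (w i) ∈ Q) → OffHyperplanes w (Independent w),
      ∀ (k r : ℕ) (w : Fin r → List (Letter k)), Function.Injective w → SameWeight w →
        (∀ i, AdmissiblePattern (w i) ∧ constantPart (w i) ∈ Q) → AlongDispersed w (Independent w),
      ∀ (r : ℕ) (w : Fin r → List (Letter 1)), Function.Injective w → SameWeight w →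
        (∀ i, AdmissiblePattern (w i) ∧ constantPart (w i) ∈ Q ∧ HasVariable (w i)) →
        ∀ B : ℝ, ∃ s : Fin 1 → ℕ, 2 ≤ s 0 ∧ Independent w B s]) ∧
    -- (3) Zagier's conjecture
    ((HoffmanFrontsOneWeight → ∀ n, (d n : Cardinal) ≤ Module.rank ℚ (Z n)) ∧
      (BrownSpanning → ((∀ n, Module.rank ℚ (Z n) = d n) ↔ HoffmanFrontsOneWeight) ∧
        (((∀ n, Module.rank ℚ (Z n) = d n) ∧ iSupIndep Z) ↔ HoffmanFrontsAllWeights))) ∧
    -- (4) unconditional cases
    (∀ m : ℕ, 1 ≤ m → ∀ (k r : ℕ) (w : Fin r → List (Letter k)), Function.Injective w →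
      (∀ i, AdmissiblePattern (w i) ∧ ∃ n : ℕ, constantPart (w i) = List.replicate n (2 * m)) →
      OffHyperplanes w (Independent w)) ∧
    (∀ (k r : ℕ) (w : Fin r → List (Letter k)), Function.Injective w →
      (∀ i, AdmissiblePattern (w i) ∧
        (constantPart (w i) = [] ∨ constantPart (w i) = [2] ∨ constantPart (w i) = [3])) →
      OffHyperplanes w (Independent w)) ∧
    (∀ (k r : ℕ) (w : Fin r → List (Letter k)), Function.Injective w → SameWeight w →
      (∀ i, AdmissiblePattern (w i) ∧
        ∃ n : ℕ, constantPart (w i) = List.replicate n 2 ∨ constantPart (w i) = List.replicate n 2 ++ [3]) →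
      OffHyperplanes w (Independent w)) ∧
    -- polynomials
    (∀ (k : ℕ) (p : Fin k → Polynomial ℝ), (∀ b : Fin k → ℤ, b ≠ 0 → 0 < (∑ j, (b j : ℝ) • p j).natDegree) →
      Dispersed fun j n => (p j).eval (n : ℝ)) := by
  refine ⟨part1, part2, part3, ?_, ?_, ?_, fun k p hp => Pool.Agent.U553.HY.dispersed_poly p hp⟩
  · intro m hm k r w hinj hw
    rw [ind_iff]
    simp only [constantPart_eq] at hw
    exact off_even m hm w hinj hw
  · intro k r w hinj hw
    rw [ind_iff]
    simp only [constantPart_eq] at hw
    exact off_23 w hinj hw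
  · intro k r w hinj hwt hw
    rw [ind_iff]
    simp only [constantPart_eq] at hw
    exact off_hom w hinj hwt hw

end Pool.Agent.Results.MP_2000e9_nt.HoffmanFronts
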