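import Mathlib
import Pool.Agent.U623.HB.FinalR

/-!
# MP_2000e9_nt: multiple zeta values of different weights with a common last part

Q1 says in particular that the values of different weights have no relation. Let `U` be a finite set of admissible
words (of any weights) and `K` a natural number. For a list `s` of positive integers and `K` different positive
integers `a_0 < … < a_(K-1)` consider the values `ζ(u, a_k, s)`, `u ∈ U`, `k < K` (the letters of `u` belong to the
largest variables); their weights are those of `u` plus `a_k` plus that of `s`, so they are spread over arbitrarily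
distant weights.

(1) For real numbers `c_(k,u)`, not all zero, there are `n0` and `J` such that `∑ c_(k,u) ζ(u, a_k, s) ≠ 0` for ALL
`a_0 < … < a_(K-1)` and all `s` of length at least `n0`; more precisely this sum is at least `ζ(a_k + J, s)` in
absolute value if `c_(k,u) ≠ 0` for some `u`.

(2) For every `d` there are `κ > 0`, `E`, `J` such that the sum with polynomials in `π²` of degree at most `d` with
integer coefficients of absolute value at most `h` in place of the `c_(k,u)` is at least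
`κ h ^ (-E) ζ(a_k + J, s)` in absolute value, for all `a_0 < … < a_(K-1)` and all `s` with `h ^ E ≤ κ · length (a, s)`.

The proof: the sum is `∑_m S(m) m ^ (-a_0) H_s(m)` with `H_s(m) ≥ 0` and
`S(m) = ∑_k ∑_u c_(k,u) T_u(m) m ^ (a_0 - a_k)`, where `T_u(m)` is the tail of the series of `u`. The tails are
linearly independent over the rational functions of `m` modulo functions which decrease faster than all powers of
`m`. By induction on `K` there is a bound `J` such that differences `a_k - a_0 > J` do not matter, and for the finitely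
many other differences the asymptotic expansion of `S` gives the sign of `S(m)` for all large `m`.
-/

set_option autoImplicit false

namespace Pool.Agent.Results.MP_2000e9_nt.MixedWeightsCommonLastPart

/-- the multiple zeta value of the list `l`; the first entry belongs to the largest summation variable: in the
notation of the problem `mzv [n_r, …, n_1] = ζ(n_1, …, n_r)` -/
noncomputable def mzv (l : List ℕ) : ℝ :=
  ∑' m : {m : Fin l.length → ℕ // StrictAnti m ∧ ∀ i, 0 < m i}, ∏ i, ((m.1 i : ℝ) ^ (l.get i))⁻¹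

/-- the letters are positive and the first letter (if there is one) is at least two -/
def Admissible (u : List ℕ) : Prop := (∀ x ∈ u, 1 ≤ x) ∧ ∀ x ∈ u.head?, 2 ≤ x

/-- `a_0 < a_1 < … < a_(K-1)` are positive integers, and at least two if the empty word is in `U`; `s` is a list of
positive integers -/
def LastParts (U : Finset (List ℕ)) (K : ℕ) (a : ℕ → ℕ) (s : List ℕ) : Prop :=
  (∀ i j, i < j → j < K → a i < a j) ∧ (∀ k < K, 1 ≤ a k) ∧ (([] : List ℕ) ∈ U → ∀ k < K, 2 ≤ a k) ∧
    ∀ x ∈ s, 1 ≤ x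

lemma adm_iff {u : List ℕ} (h : Admissible u) : Pool.Agent.H447R2.MZ.Adm u := by
  refine ⟨h.1, fun a t hu => h.2 a ?_⟩
  rw [hu]
  rfl

lemma mzv_eq {l : List ℕ} (hl : Pool.Agent.H447R2.MZ.Adm l) : mzv l = Pool.Agent.H447R2.MZ.val l := by
  have h1 := Pool.Agent.H447R2.MZ.hasSum_val l.length l.get (by rw [List.ofFn_get]; exact hl)
  rw [List.ofFn_get] at h1
  exact h1.tsum_eq

lemma adm_app {u : List ℕ} (hu : Admissible u) {a : ℕ} {s : List ℕ} (ha : 1 ≤ a) (hs : ∀ x ∈ s, 1 ≤ x)
    (h0 : u = [] → 2 ≤ a) : Pool.Agent.H447R2.MZ.Adm (u ++ a :: s) := by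
  refine ⟨fun x hx => ?_, fun b t hb => ?_⟩
  · rw [List.mem_append, List.mem_cons] at hx
    rcases hx with hx | rfl | hx
    · exact hu.1 x hx
    · exact ha
    · exact hs x hx
  · cases u with
    | nil =>
      rw [List.nil_append, List.cons.injEq] at hb
      rw [← hb.1]
      exact h0 rfl
    | cons c u =>
      rw [List.cons_append, List.cons.injEq] at hb
      rw [← hb.1]
      exact hu.2 c rfl

lemma adm_last {a : ℕ} {s : List ℕ} (ha : 2 ≤ a) (hs : ∀ x ∈ s, 1 ≤ x) : Pool.Agent.H447R2.MZ.Adm (a :: s) := by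
  refine ⟨fun x hx => ?_, fun b t hb => ?_⟩
  · rw [List.mem_cons] at hx
    rcases hx with rfl | hx
    · omega
    · exact hs x hx
  · rw [List.cons.injEq] at hb
    omega

/-- **Theorem.** Let `U` be a finite set of admissible words and `K` a natural number.
(1) For all real `c_(k,u)` there are `n0` and `J ≥ 1` such that for all `a_0 < … < a_(K-1)`, all `s` of length at
least `n0` and all `k < K` for which some `c_(k,u)`, `u ∈ U`, is not zero,
`|∑_(k,u) c_(k,u) ζ(u, a_k, s)| ≥ ζ(a_k + J, s) > 0`.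
(2) For every `d` there are `κ > 0`, `E` and `J ≥ 1` such that for all `a_0 < … < a_(K-1)`, all `s`, all real `h ≥ 1`
with `h ^ E ≤ κ (length s + 1)`, all `P_(k,u) ∈ ℤ[X]` of degree at most `d` and with coefficients at most `h` in
absolute value, and all `k < K` for which some `P_(k,u)`, `u ∈ U`, is not zero,
`|∑_(k,u) P_(k,u)(π²) ζ(u, a_k, s)| ≥ κ h ^ (-E) ζ(a_k + J, s) > 0`. -/
theorem result (U : Finset (List ℕ)) (hU : ∀ u ∈ U, Admissible u) (K : ℕ) :
    (∀ c : ℕ → List ℕ → ℝ, ∃ n0 J : ℕ, 1 ≤ J ∧ ∀ (a : ℕ → ℕ) (s : List ℕ), LastParts U K a s →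
      n0 ≤ s.length → ∀ k < K, (∃ u ∈ U, c k u ≠ 0) →
        0 < mzv ((a k + J) :: s) ∧
        mzv ((a k + J) :: s) ≤ |∑ k ∈ Finset.range K, ∑ u ∈ U, c k u * mzv (u ++ a k :: s)|) ∧
    (∀ d : ℕ, ∃ κ : ℝ, 0 < κ ∧ ∃ E J : ℕ, 1 ≤ J ∧ ∀ (a : ℕ → ℕ) (s : List ℕ), LastParts U K a s →
      ∀ (h : ℝ), 1 ≤ h → h ^ E ≤ κ * (s.length + 1) → ∀ P : ℕ → List ℕ → Polynomial ℤ,
      (∀ k < K, ∀ u ∈ U, (P k u).natDegree ≤ d ∧ ∀ i, |((P k u).coeff i : ℝ)| ≤ h) →
      ∀ k < K, (∃ u ∈ U, P k u ≠ 0) →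
        0 < mzv ((a k + J) :: s) ∧
        κ * (h ^ E)⁻¹ * mzv ((a k + J) :: s) ≤ |∑ k ∈ Finset.range K, ∑ u ∈ U,
          Polynomial.aeval (Real.pi ^ 2) (P k u) * mzv (u ++ a k :: s)|) := by
  have hU' : ∀ u ∈ U, Pool.Agent.H447R2.MZ.Adm u := fun u hu => adm_iff (hU u hu)
  have hadm : ∀ (a : ℕ → ℕ) (s : List ℕ), LastParts U K a s →
      ∀ k < K, ∀ u ∈ U, Pool.Agent.H447R2.MZ.Adm (u ++ a k :: s) := fun a s h k hk u hu =>
    adm_app (hU u hu) (h.2.1 k hk) h.2.2.2 fun h0 => h.2.2.1 (h0 ▸ hu) k hk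
  have hadm' : ∀ (a : ℕ → ℕ) (s : List ℕ), LastParts U K a s → ∀ J, 1 ≤ J →
      ∀ k < K, Pool.Agent.H447R2.MZ.Adm ((a k + J) :: s) := fun a s h J hJ k hk =>
    adm_last (by have := h.2.1 k hk; omega) h.2.2.2
  constructor
  · intro c
    obtain ⟨n0, J, hJ, h⟩ := Pool.Agent.U623.HB.mixedR U hU' K c
    refine ⟨n0, J, hJ, fun a s hl hn k hk hck => ?_⟩
    have h1 := h a s hl.1 hl.2.1 hl.2.2.2 (hadm a s hl) (by omega) k hk hck
    rw [mzv_eq (hadm' a s hl J hJ k hk)]
    rwa [Finset.sum_congr rfl fun k hk => Finset.sum_congr rfl fun u hu => by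
      rw [mzv_eq (hadm a s hl k (Finset.mem_range.1 hk) u hu)]]
  · intro d
    obtain ⟨κ, hκ, E, J, hJ, h⟩ := Pool.Agent.U623.HB.mixed U hU' (Pool.Agent.U623.HF.LMe_pi d) K
    refine ⟨κ, hκ, E, J, hJ, fun a s hl x hx hlen P hP k hk hPk => ?_⟩
    have h1 := h a s hl.1 hl.2.1 hl.2.2.2 (hadm a s hl) (fun k u i => (P k u).coeff (i : ℕ)) x hx
      (fun k hk u hu i => (hP k hk u hu).2 i) hlen k hk (by
        obtain ⟨u, hu, hPu⟩ := hPk
        refine ⟨u, hu, ⟨(P k u).natDegree, Nat.lt_succ_of_le (hP k hk u hu).1⟩, ?_⟩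
        simpa using hPu)
    rw [mzv_eq (hadm' a s hl J hJ k hk)]
    refine ⟨h1.1, h1.2.trans (le_of_eq ?_)⟩
    congr 1
    refine Finset.sum_congr rfl fun k hk => Finset.sum_congr rfl fun u hu => ?_
    rw [mzv_eq (hadm a s hl k (Finset.mem_range.1 hk) u hu)]
    congr 1
    rw [Polynomial.aeval_eq_sum_range' (Nat.lt_succ_of_le (hP k (Finset.mem_range.1 hk) u hu).1),
      Finset.sum_range]
    refine Finset.sum_congr rfl fun i _ => ?_
    rw [zsmul_eq_mul]

end Pool.Agent.Results.MP_2000e9_nt.MixedWeightsCommonLastPart
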